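import Pool.Agent.Lib.MP_c9a594_an.PW.AlgF

open Pool.Agent.Lib.MP_c9a594_an in
/-- There is a function `ω` tending to infinity such that, for pairwise multiplicatively independent
bases `b i`, irrational numbers `x i` are algebraically independent over the rationals as soon as each
`x i` lies in the field generated by the reals whose expansion in base `b i` has block complexity at
most `n ω(n)` for all large `n`. -/
theorem Pool.Agent.Results.MP_c9a594_an.AlgebraicIndependence.result :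
    ∃ ω : ℕ → ℕ, Filter.Tendsto ω Filter.atTop Filter.atTop ∧ ∀ (r : ℕ) (b : Fin r → ℕ),
      (∀ i, 2 ≤ b i) → (∀ i j, i ≠ j → ∀ k l : ℕ, 0 < k → 0 < l → b i ^ k ≠ b j ^ l) →
      ∀ x : Fin r → ℝ, (∀ i, Irrational (x i)) →
      (∀ i, x i ∈ Subfield.closure {y : ℝ | ∃ n₀ : ℕ, ∀ n : ℕ, n₀ ≤ n → Set.ncard {z : ℤ |
        ∃ k : ℕ, z = ⌊(b i : ℝ) ^ n * Int.fract ((b i : ℝ) ^ k * y)⌋} ≤ n * ω n}) →
      AlgebraicIndependent ℚ x := by
  obtain ⟨ω₁, a1, a2⟩ := PW.mainA
  obtain ⟨ω₂, b1, b2⟩ := PW.mainF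
  refine ⟨fun n => min (ω₁ n) (ω₂ n), Filter.tendsto_atTop.mpr fun k =>
    ((a1.eventually_ge_atTop k).and (b1.eventually_ge_atTop k)).mono fun n hn => le_min hn.1 hn.2,
    fun r b hb hi x hx h => b2 r b hb hi x (fun i => a2 _ (Subfield.closure_mono ?_ (h i)) (hx i))
      fun i => Subfield.closure_mono ?_ (h i)⟩
  · exact fun y ⟨n₀, h2⟩ => ⟨b i, hb i, Filter.eventually_atTop.mpr ⟨n₀, fun n hn =>
      (h2 n hn).trans (Nat.mul_le_mul_left _ (min_le_left _ _))⟩⟩
  · exact fun y ⟨n₀, h2⟩ => Filter.eventually_atTop.mpr ⟨n₀, fun n hn =>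
      (h2 n hn).trans (Nat.mul_le_mul_left _ (min_le_right _ _))⟩
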