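import Pool.Agent.Lib.MP_c9a594_an.H59.ConvAlg

/-- For multiplicatively independent `a`, `b`, ergodic measures of positive entropy for
multiplication by `a` and by `b` modulo one, and a nonzero real algebraic number `l`, the Fourier
transform of the law of `x + l * y` tends to zero at infinity. -/
theorem Pool.Agent.Results.MP_c9a594_an.ConvolutionRajchman.result (a b : ℕ) (ha : 2 ≤ a)
    (hb : 2 ≤ b) (hab : ∀ m n : ℕ, a ^ m = b ^ n → m = 0 ∧ n = 0)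
    (μ ν : MeasureTheory.Measure ℝ) [MeasureTheory.IsProbabilityMeasure μ]
    [MeasureTheory.IsProbabilityMeasure ν]
    (hμ : Ergodic (fun x : ℝ => Int.fract ((a : ℝ) * x)) μ)
    (hν : Ergodic (fun x : ℝ => Int.fract ((b : ℝ) * x)) ν)
    (hμ0 : ∃ c : ℝ, 0 < c ∧ ∀ n : ℕ, c * n ≤ ∑ k ∈ Finset.range (a ^ n),
      Real.negMulLog (μ.real (Set.Ico ((k : ℝ) / (a : ℝ) ^ n) ((k + 1 : ℝ) / (a : ℝ) ^ n))))
    (hν0 : ∃ c : ℝ, 0 < c ∧ ∀ n : ℕ, c * n ≤ ∑ k ∈ Finset.range (b ^ n),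
      Real.negMulLog (ν.real (Set.Ico ((k : ℝ) / (b : ℝ) ^ n) ((k + 1 : ℝ) / (b : ℝ) ^ n))))
    (l : ℝ) (hl : IsAlgebraic ℚ l) (hl0 : l ≠ 0) :
    Filter.Tendsto (fun t : ℝ => ∫ z : ℝ × ℝ,
      Complex.exp (2 * Real.pi * Complex.I * t * (z.1 + l * z.2)) ∂(μ.prod ν))
      (Filter.cocompact ℝ) (nhds 0) :=
  Pool.Agent.Lib.MP_c9a594_an.FS.conv_decay_alg ha hb hab μ ν hμ hν hμ0 hν0 l hl hl0
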