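import Pool.Agent.Lib.MP_c9a594_an.SharpFinal
import Pool.Agent.Lib.MP_c9a594_an.SharpLinear

open Pool.Agent.Lib.MP_c9a594_an in
/-- For multiplicatively independent bases `a`, `b` and every irrational `x`, the copy dimensions
of the expansions of `x` in the two bases add up to at least `1 - overlap a b`; for coprime bases
the bound is `1`. -/
theorem Pool.Agent.Results.MP_c9a594_an.CopyDimension.result (a b : ℕ) (ha : 2 ≤ a)
    (hb : 2 ≤ b) (hab : ∀ k l : ℕ, 0 < k → 0 < l → a ^ k ≠ b ^ l) (x : ℝ) (hx : Irrational x) :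
    1 - overlap a b ≤ copyDim a x + copyDim b x :=
  copyDim_add ha hb hab hx
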