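import Pool.Agent.Lib.MP_c9a594_an.FS.TwoSet

/-- For multiplicatively independent `a`, `b`, sets `X`, `Y` mapped into themselves by
multiplication by `a`, resp. `b`, modulo one whose closures have positive dimension, and a nonzero
real algebraic number `ρ`: for all real `t` of large modulus, `t X` modulo one meets every
interval of length `ε` or `ρ t Y` modulo one meets every interval of length `ε`. -/
theorem Pool.Agent.Results.MP_c9a594_an.TwoBaseDilates.result (a b : ℕ) (ha : 2 ≤ a) (hb : 2 ≤ b)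
    (hab : ∀ m n : ℕ, a ^ m = b ^ n → m = 0 ∧ n = 0)
    (X : Set ℝ) (hX : X ⊆ Set.Ico 0 1) (hS : ∀ x ∈ X, Int.fract ((a : ℝ) * x) ∈ X)
    (hdX : 0 < dimH (closure X))
    (Y : Set ℝ) (hY : Y ⊆ Set.Ico 0 1) (hT : ∀ y ∈ Y, Int.fract ((b : ℝ) * y) ∈ Y)
    (hdY : 0 < dimH (closure Y)) (ρ : ℝ) (hρ : ρ ≠ 0) (halg : IsAlgebraic ℚ ρ)
    (ε : ℝ) (hε : 0 < ε) :
    ∃ T : ℝ, ∀ t : ℝ, T ≤ |t| →
      (∀ u : ℝ, 0 ≤ u → u + ε ≤ 1 → ∃ x ∈ X, Int.fract (t * x) ∈ Set.Ioo u (u + ε)) ∨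
      ∀ u : ℝ, 0 ≤ u → u + ε ≤ 1 → ∃ y ∈ Y, Int.fract (ρ * t * y) ∈ Set.Ioo u (u + ε) :=
  Pool.Agent.Lib.MP_c9a594_an.FS.two_set ha hb hab hX hS hdX hY hT hdY hρ halg hε
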